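import Pool.Agent.V5helper57.NFld.Mod

/-!
# The products of Birch and Swinnerton-Dyer over any number field are Brownian paths, with drift rank + 1/2

Let `E` be an elliptic curve over a number field `K` and `P(y)` the product of `#E(k_v) / q_v` over the primes `v` of `K` of
norm `q_v ≤ y` which do not divide `2 Δ`. Birch and Swinnerton-Dyer found their conjecture from the numerical evidence that
`P(y)` should be of size `(log y) ^ r`, where `r` is the rank of `E(K)`; an asymptotic formula `P(y) ~ C (log y) ^ r` implies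
`ord_{s = 1} L(E / K, s) = r` (Goldfeld, Kuo and Murty, Conrad).

For `r = 0, 1, 2` let `E_t` be the curves `y² = x³ + b x² + c x + d` with integral coefficients of the following families:
all such curves (`r = 0`), the curves through a point `(t₀, t₁)` (`r = 1`), and the curves through the three points of the line
`y = t₃ x + t₄` with `x = t₀, t₁, t₂`, of which two are marked (`r = 2`). The parameters `t_i` are elements of the ring of
integers, with random coordinates of absolute value at most `H` with respect to a fixed integral basis. We prove an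
invariance principle on all windows `T ≤ log log y ≤ T + l` of the time `log log y`: the path

  `t ↦ (log P(exp (exp (T + t l))) - log P(exp (exp T)) - (r + 1 / 2) t l) / √l`,  `0 ≤ t ≤ 1`,

converges in distribution, for the uniform distance, to the standard Brownian motion if `l → ∞`, uniformly in `T ≥ 0` and in
`H ≥ y ^ 11`, where `y = exp (exp (T + l))` is the right end of the window. So as long as `y ≤ H ^ (1 / 11)` each marked point
increases the drift of `log P(y)` by one, as it should be for the rank of `E(K)`, over every number field, but the size of `P(y)` is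
not `(log y) ^ r`: there is an additional drift `1 / 2` and a Brownian fluctuation.

From Mathlib: `IsBrownianReal B P`: `B` is a standard Brownian motion on the probability space with the measure `P`.

The first moments of the local data are from the starting files (`Q282.NF`), and so are the estimates for characteristic
functions, fourth moments and maxima (`Pool.Agent.X280`).
-/

set_option autoImplicit false

namespace Pool.Agent.Results.MP_cd906c_nt.BrownianPaths

open MeasureTheory ProbabilityTheory NumberField IsDedekindDomain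
open scoped NNReal

/-- The coefficients `(b, c, d)` of the cubic polynomials `x³ + b x² + c x + d` of the families: all polynomials (`r = 0`),
`(x - t₀) (x² + t₂ x + t₃) + t₁²` (`r = 1`), and `(x - t₀) (x - t₁) (x - t₂) + (t₃ x + t₄)²` (`r = 2`). -/
def family {R : Type} [CommRing R] : (r : ℕ) → (Fin (r + 3) → R) → R × R × R
  | 0, t => (t 0, t 1, t 2)
  | 1, t => (t 2 - t 0, t 3 - t 0 * t 2, t 1 ^ 2 - t 0 * t 3)
  | _ + 2, t => (t 3 ^ 2 - (t 0 + t 1 + t 2), t 0 * t 1 + t 0 * t 2 + t 1 * t 2 + 2 * t 3 * t 4, t 4 ^ 2 - t 0 * t 1 * t 2)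

/-- The marked points: none (`r = 0`), `(t₀, t₁)` (`r = 1`), `(t₀, t₃ t₀ + t₄)` and `(t₁, t₃ t₁ + t₄)` (`r = 2`). -/
def marked {R : Type} [CommRing R] : (r : ℕ) → (Fin (r + 3) → R) → List (R × R)
  | 0, _ => []
  | 1, t => [(t 0, t 1)]
  | _ + 2, t => [(t 0, t 3 * t 0 + t 4), (t 1, t 3 * t 1 + t 4)]

/-- The point `P` lies on the curve `y² = x³ + b x² + c x + d`, `C = (b, c, d)`. -/
def OnCurve {R : Type} [CommRing R] (C : R × R × R) (P : R × R) : Prop :=
  P.2 ^ 2 = P.1 ^ 3 + C.1 * P.1 ^ 2 + C.2.1 * P.1 + C.2.2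

/-- The discriminant of `x³ + b x² + c x + d`. -/
def disc {R : Type} [CommRing R] (C : R × R × R) : R :=
  C.1 ^ 2 * C.2.1 ^ 2 - 4 * C.2.1 ^ 3 - 4 * C.1 ^ 3 * C.2.2 + 18 * C.1 * C.2.1 * C.2.2 - 27 * C.2.2 ^ 2

section

variable {K : Type} [Field K] [NumberField K]

/-- The number of the points of the curve `C` over the residue field of `v`, with the point at infinity. -/
noncomputable def numPoints (C : 𝓞 K × 𝓞 K × 𝓞 K) (v : HeightOneSpectrum (𝓞 K)) : ℕ :=
  Nat.card {P : (𝓞 K ⧸ v.asIdeal) × (𝓞 K ⧸ v.asIdeal) //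
    P.2 ^ 2 = P.1 ^ 3 + (Ideal.Quotient.mk v.asIdeal) C.1 * P.1 ^ 2 + (Ideal.Quotient.mk v.asIdeal) C.2.1 * P.1 +
      (Ideal.Quotient.mk v.asIdeal) C.2.2} + 1

/-- The product `P(y)` of `#E(k_v) / q_v` over the primes `v` of `K` with `q_v ≤ y` which do not divide twice the
discriminant. -/
noncomputable def product (C : 𝓞 K × 𝓞 K × 𝓞 K) (y : ℝ) : ℝ :=
  ∏ᶠ v ∈ {v : HeightOneSpectrum (𝓞 K) | 2 * disc C ∉ v.asIdeal ∧ (Ideal.absNorm v.asIdeal : ℝ) ≤ y},
    (numPoints C v : ℝ) / Ideal.absNorm v.asIdeal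

/-- The path of the curve `C` on the window `T ≤ log log y ≤ T + l`:
`t ↦ (log P(exp (exp (T + t l))) - log P(exp (exp T)) - κ t l) / √l`. -/
noncomputable def path (κ : ℝ) (C : 𝓞 K × 𝓞 K × 𝓞 K) (T l t : ℝ) : ℝ :=
  (Real.log (product C (Real.exp (Real.exp (T + t * l)))) - Real.log (product C (Real.exp (Real.exp T))) - κ * (t * l)) / √l

end

/-- The mean value of `F` over the integral matrices `c` with `|c_ij| ≤ H`. -/
noncomputable def mean {m n : ℕ} (H : ℕ) (F : (Fin m × Fin n → ℤ) → ℝ) : ℝ :=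
  (∑ c ∈ Fintype.piFinset (fun _ : Fin m × Fin n => Finset.Icc (-(H : ℤ)) H), F c) / (2 * H + 1 : ℝ) ^ (m * n)

/-- `Φ` is bounded and Lipschitz for the uniform distance on `[0, 1]`; in particular it depends only on the values on `[0, 1]`. -/
def IsTest (Φ : (ℝ → ℝ) → ℝ) : Prop :=
  ∃ M L : ℝ, (∀ f, |Φ f| ≤ M) ∧
    ∀ (f g : ℝ → ℝ) (δ : ℝ), (∀ t ∈ Set.Icc (0 : ℝ) 1, |f t - g t| ≤ δ) → |Φ f - Φ g| ≤ L * δ

/-- **The invariance principle** for the family number `r` over `K`: for any integral basis `w` of `K` and random parameters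
`t_i = ∑ c_ij w_j` with `|c_ij| ≤ H` the paths converge in distribution to the Brownian motion for `l → ∞`, uniformly in
`T ≥ 0` and in `H ≥ exp (exp (T + l)) ^ 11`. -/
def BrownianLimit (K : Type) [Field K] [NumberField K] (r : ℕ) : Prop :=
  ∀ w : Fin (Module.finrank ℚ K) → 𝓞 K, (∀ x : 𝓞 K, ∃ a : Fin (Module.finrank ℚ K) → ℤ, x = ∑ j, (a j : 𝓞 K) * w j) →
  ∀ (Ω : Type) [MeasurableSpace Ω] (P : Measure Ω) (B : ℝ≥0 → Ω → ℝ), IsBrownianReal B P →
    ∀ Φ : (ℝ → ℝ) → ℝ, IsTest Φ → ∀ ε : ℝ, 0 < ε →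
      ∃ l₀ : ℝ, ∀ l T : ℝ, l₀ ≤ l → 0 ≤ T → ∀ H : ℕ, Real.exp (Real.exp (T + l)) ^ 11 ≤ (H : ℝ) →
        |mean H (fun c : Fin (r + 3) × Fin (Module.finrank ℚ K) → ℤ =>
            Φ (path (r + 1 / 2) (family r (fun i => ∑ j, (c (i, j) : 𝓞 K) * w j)) T l)) -
          ∫ ω, Φ (fun t : ℝ => B t.toNNReal ω) ∂P| ≤ ε

open Pool.Agent.X280.BP Pool.Agent.V5helper57.Win Pool.Agent.Y722.HS Pool.Agent.V5helper57.NFld

theorem family_eq {R : Type} [CommRing R] (r : ℕ) (t : Fin (r + 3) → R) : family r t = Q282.NF.family r t := by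
  match r, t with
  | 0, _ => rfl
  | 1, _ => rfl
  | _ + 2, _ => rfl

theorem mean_eq {m n : ℕ} (H : ℕ) (F : (Fin m × Fin n → ℤ) → ℝ) : mean H F = EB H F := by
  unfold mean EB
  rw [Fintype.card_prod, Fintype.card_fin, Fintype.card_fin]
  rfl

section

variable {K : Type} [Field K] [NumberField K]

theorem product_eq (C : 𝓞 K × 𝓞 K × 𝓞 K) {y : ℝ} (hy : 0 ≤ y) : product C y = Q282.NF.product C ⌊y⌋₊ := by
  unfold product Q282.NF.product
  have e : {v : HeightOneSpectrum (𝓞 K) | 2 * disc C ∉ v.asIdeal ∧ (Ideal.absNorm v.asIdeal : ℝ) ≤ y} =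
      {v : HeightOneSpectrum (𝓞 K) | Q282.NF.Good C v ∧ Ideal.absNorm v.asIdeal ≤ ⌊y⌋₊} := by
    ext v
    simp only [Set.mem_ofPred_eq]
    rw [Nat.le_floor_iff hy]
    exact Iff.rfl
  rw [e]
  refine finprod_congr fun v => finprod_congr fun _ => ?_
  unfold numPoints Q282.NF.points
  push_cast
  rfl

theorem path_eq (κ : ℝ) (r : ℕ) (w : Fin (Module.finrank ℚ K) → 𝓞 K) (T l : ℝ)
    (c : Fin (r + 3) × Fin (Module.finrank ℚ K) → ℤ) :
    path κ (family r (fun i => ∑ j, (c (i, j) : 𝓞 K) * w j)) T l =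
      Pool.Agent.V5helper57.Win.path (fun X c => Real.log (Q282.NF.product (Cc r w c) X)) κ T l c := by
  funext t
  unfold path Pool.Agent.V5helper57.Win.path Y
  rw [product_eq _ (Real.exp_pos _).le, product_eq _ (Real.exp_pos _).le, family_eq]
  rfl

theorem points_on (r : ℕ) {R : Type} [CommRing R] (t : Fin (r + 3) → R) : ∀ P ∈ marked r t, OnCurve (family r t) P := by
  match r, t with
  | 0, _ => intro P hP; exact absurd hP (List.not_mem_nil)
  | 1, t =>
    intro P hP
    unfold marked at hP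
    rw [List.mem_singleton] at hP
    subst hP
    unfold OnCurve family
    ring
  | _ + 2, t =>
    intro P hP
    unfold marked at hP
    rw [List.mem_cons, List.mem_singleton] at hP
    rcases hP with rfl | rfl
    · unfold OnCurve family
      ring
    · unfold OnCurve family
      ring

end

/-- **The products of Birch and Swinnerton-Dyer of random curves with `r = 0, 1, 2` marked points over any number field are
Brownian paths with drift `r + 1 / 2`.** -/
theorem result (K : Type) [Field K] [NumberField K] (r : ℕ) (hr : r ≤ 2) :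
    (∀ t : Fin (r + 3) → 𝓞 K, (marked r t).length = r ∧ ∀ P ∈ marked r t, OnCurve (family r t) P) ∧ BrownianLimit K r := by
  classical
  refine ⟨fun t => ⟨?_, points_on r t⟩, ?_⟩
  · interval_cases r <;> rfl
  · intro w hw Ω _ P B hB Φ hΦ ε hε
    obtain ⟨M, L, hM, hL⟩ := hΦ
    have hL0 : 0 ≤ L := by
      have := hL 0 0 1 (fun t _ => by simp)
      simpa using this
    have hΦ : Fun Φ M L := ⟨hL0, hM, fun f g δ _ hfg => hL f g δ fun t ht => hfg t ht.1 ht.2⟩
    obtain ⟨K0, K1, Mo⟩ := model K r hr w hw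
    have h1 := Mo.donsker hB hΦ hε
    rw [Filter.eventually_atTop] at h1
    obtain ⟨l₀, hl₀⟩ := h1
    refine ⟨l₀, fun l T hl hT H hH => ?_⟩
    rw [mean_eq]
    simp only [path_eq]
    refine hl₀ l hl T hT H ?_
    have h2 : ((Y (T + l) : ℕ) : ℝ) ≤ Real.exp (Real.exp (T + l)) := Nat.floor_le (Real.exp_pos _).le
    have h3 : ((Y (T + l) : ℕ) : ℝ) ^ 11 ≤ Real.exp (Real.exp (T + l)) ^ 11 := pow_le_pow_left₀ (by positivity) h2 11
    exact_mod_cast h3.trans hH

end Pool.Agent.Results.MP_cd906c_nt.BrownianPaths
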