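import Pool.Agent.V5helper50.MQ.Law
import Pool.Agent.Results.MP_03e5d0_nt.FullClassX49

/-!
# The rank formula of Birch and Swinnerton-Dyer over random real multiquadratic fields

`E_D` is the quadratic twist by `D` of `X_0(49) : y² + x y = x³ - x² - 2 x - 1`, where `D ≥ 1` is any
squarefree number with all prime factors `≡ 1 mod 4`; such `D` are called admissible. Let `F` be any
real multiquadratic field `ℚ(√m : m ∈ S)`, `S` a finite set of admissible numbers, `n = [F : ℚ]`. For
admissible `M` and `D` the squarefree part `tw M D` of `M D` is admissible.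

* For all `F` and `D` the function `L(E_D/F, s)` has an entire continuation. If the curves `E_{tw m D}`,
  for all the `n` admissible `m` with `√m ∈ F`, have finitely many rational points and `Ш[2] = 0` over
  `ℚ`, then the rank formula holds for `E_D` over `F`, both sides being zero; `D` is then called good
  for `F`.
* Fixed field, random curve. Let the curves `E_M`, `M ∈ T`, be pairwise not isomorphic over `F`, and
  `V ⊆ T`. The proportion of the admissible `D` such that `tw M D` is good for `F` for exactly the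
  `M ∈ T` which are in `V`, is `(c ^ n) ^ |V| (1 - c ^ n) ^ (|T| - |V|)`,
  `c = ∏_{i ≥ 0} (1 - 2^{-(2i+1)}) = 0.4194...`. In particular exactly the proportion `c ^ [F : ℚ]` of the
  admissible numbers is good for `F`.
* Random field, fixed curves. `M` is good for `F(√D)` if and only if `M` and `tw M D` are good for `F`.
  So, if all the elements of `T` are good for `F`, the proportion of the admissible `D` such that exactly
  the `M ∈ V` remain good for `F(√D)` is again `(c ^ n) ^ |V| (1 - c ^ n) ^ (|T| - |V|)`, and there are at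
  least `a X / √(log X)` such `D ≤ X`.
* `1` is good for `ℚ`, so that there are towers of such fields over which the rank formula holds for
  `X_0(49)`, with a positive proportion of the admissible `D` at each step.

The proof: the local factors of `E_D` over `F` at all the places (the ramified ones, where `E_D` may have
acquired good reduction, included) and the characters of `Gal(F/ℚ)` give
`L(E_D/F, s) = ∏ L(E_{tw m D}/ℚ, s)`; the rank over `F` is the sum of the ranks of the twists over `ℚ`;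
the values over `ℚ` and the counting are those of the starting files `MP_4a9ea6_nt/TwoPartTwistsX49` and
`MP_03e5d0_nt/FullClassX49`.
-/

set_option autoImplicit false

open NumberField IsDedekindDomain WeierstrassCurve Filter Topology

namespace Pool.Agent.Results.MP_cd906c_nt.RandomMultiquadraticFields

open Pool.Agent.Results.MP_4a9ea6_nt.TwoPartTwistsX49 (twist)
open Pool.Agent.Results.MP_92892c_nt.FullClassTwoPartX49 (Family RankZeroShaTwo num)
open Pool.Agent.Results.MP_03e5d0_nt.FullClassX49 (tw c)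

/-- The curve `E_D` over the field `F`. -/
abbrev curve (D : ℕ) (F : Type) [Field F] : WeierstrassCurve F := (twist D).map (Int.castRingHom F)

/-- The field generated by the square roots of the elements of `S`. -/
noncomputable def multiquadratic (S : Finset ℕ) : IntermediateField ℚ ℂ :=
  IntermediateField.adjoin ℚ {z : ℂ | ∃ m ∈ S, z ^ 2 = (m : ℂ)}

/-- `F` contains a square root of `m`. -/
def HasSqrt (F : IntermediateField ℚ ℂ) (m : ℕ) : Prop := ∃ z ∈ F, z ^ 2 = (m : ℂ)

open Classical in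
/-- The Mordell-Weil rank. -/
noncomputable def rank {K : Type} [Field K] (W : WeierstrassCurve K) : ℕ :=
  Module.finrank ℤ W.toAffine.Point

instance (S : Finset ℕ) : NumberField (multiquadratic S) where
  to_charZero := inferInstance
  to_finiteDimensional := Pool.Agent.V5helper50.MQ.fin_mqn S

/-- The rank formula holds for `E_D` over `F = multiquadratic S`, in rank zero: `L(E_D/F, s)` has an
entire continuation, whose order of vanishing at `s = 1` is zero and equal to the rank of `E_D(F)`. -/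
def RankFormula (S : Finset ℕ) (D : ℕ) : Prop :=
  ∃ L : ℂ → ℂ, Differentiable ℂ L ∧
    (∀ s : ℂ, 2 < s.re → L s = (curve D (multiquadratic S)).LSeries s) ∧
    analyticOrderAt L 1 = rank (curve D (multiquadratic S)) ∧ analyticOrderAt L 1 = 0 ∧
    Finite (curve D (multiquadratic S)).toAffine.Point

/-- `D` is good for `F = multiquadratic S`: the rank formula holds for `E_D` over `F` in rank zero, and
the `E_{tw m D}`, for all the admissible `m` with `√m ∈ F`, have finitely many rational points and no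
element of order two in `Ш` over `ℚ`. -/
def Good (S : Finset ℕ) (D : ℕ) : Prop :=
  RankFormula S D ∧
    ∀ m, Family m → HasSqrt (multiquadratic S) m → RankZeroShaTwo (tw m D)

section proof

open Pool.Agent.V5helper50.MQ
open Pool.Agent.Y698 (AX)
open Pool.Agent.R413.SQ (Joint.tw Joint.num Joint.low_of)
open Pool.Agent.Results.MP_4a9ea6_nt.TwoPartTwistsX49 (Adm mat core E E_eq)
open Pool.Agent.Results.MP_03e5d0_nt.FullClassX49 (sel_det num_num)

variable {S : Finset ℕ} (hS : ∀ m ∈ S, Family m)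
include hS

theorem cont {D : ℕ} (hD : Family D) :
    ∃ L : ℂ → ℂ, Differentiable ℂ L ∧
      (∀ s : ℂ, 2 < s.re → L s = (curve D (multiquadratic S)).LSeries s) ∧
      (Gf (multiquadratic S) D → L 1 ≠ 0) := by
  classical
  have hS' : ∀ m ∈ S, Cl m := hS
  have hD' : Cl D := hD
  set F := multiquadratic S with hF
  have hT : ∀ T ∈ XF F (S0 S), Cl (twn T D) := fun T hT =>
    (cl_twn ((ps_S0 hS').mono (mem_XF.1 hT).1) hD').1
  have hex : ∀ T : Finset ℕ, ∃ Λ : ℂ → ℂ, T ∈ XF F (S0 S) → Differentiable ℂ Λ ∧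
      (∀ s : ℂ, 2 < s.re → Λ s = (E (twn T D)).LSeries s) ∧
      ((mat (twn T D)).det ≠ 0 → Λ 1 ≠ 0) := by
    intro T
    by_cases h : T ∈ XF F (S0 S)
    · obtain ⟨-, -, -, -, -, -, Λ, h6, h7, -, -, h8⟩ := core (hT T h)
      exact ⟨Λ, fun _ => ⟨h6, h7, fun hd => (h8 hd).1⟩⟩
    · exact ⟨fun _ => 0, fun h' => absurd h' h⟩
  choose Λ hΛ using hex
  have hm4 : D % 4 = 1 := by
    have := (hD'.ps).mod
    rwa [hD'.prod] at this
  obtain ⟨j, hj⟩ : ∃ j, D = 1 + 4 * j := ⟨D / 4, by omega⟩
  refine ⟨fun s => ∏ T ∈ XF F (S0 S), Λ T s, ?_, ?_, ?_⟩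
  · exact Differentiable.fun_finsetProd fun T hTX => (hΛ T hTX).1
  · intro s hs
    have h1 := lseries_F hS' F rfl hD' hj hs
    have h2 : curve D F = AX F j := Pool.Agent.Y698.twZ_map hj F
    rw [h2, h1]
    refine Finset.prod_congr rfl fun T hTX => ?_
    rw [(hΛ T hTX).2.1 s hs]
    have h4 : twn T D = 1 + 4 * (twn T D / 4) := by
      have h5 := (hT T hTX).ps.mod
      rw [(hT T hTX).prod] at h5
      omega
    rw [E_eq h4]
  · intro hG
    refine Finset.prod_ne_zero_iff.2 fun T hTX => (hΛ T hTX).2.2 ?_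
    obtain ⟨h1, h2⟩ := mem_XF.1 hTX
    have h3 := ((ps_S0 hS').mono h1).cl
    have h4 := hG _ h3.1 h2
    rwa [tw_twn h3.1 hD', h3.2] at h4

theorem fin_F {D : ℕ} (hD : Family D) (hG : Gf (multiquadratic S) D) :
    Finite (curve D (multiquadratic S)).toAffine.Point ∧ rank (curve D (multiquadratic S)) = 0 := by
  classical
  have hS' : ∀ m ∈ S, Cl m := hS
  have hD' : Cl D := hD
  set F := multiquadratic S with hF
  have hm4 : D % 4 = 1 := by
    have := (hD'.ps).mod
    rwa [hD'.prod] at this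
  obtain ⟨j, hj⟩ : ∃ j, D = 1 + 4 * j := ⟨D / 4, by omega⟩
  have h2 : curve D F = AX F j := Pool.Agent.Y698.twZ_map hj F
  have h3 : R7 F D = 0 := by
    refine rank0_F hS' F rfl hD' fun T hTX => ?_
    obtain ⟨h1, h2⟩ := mem_XF.1 hTX
    have h3 := ((ps_S0 hS').mono h1).cl
    have h4 := hG _ h3.1 h2
    rw [tw_twn h3.1 hD', h3.2] at h4
    have hTc : Cl (twn T D) := (cl_twn ((ps_S0 hS').mono h1) hD').1
    have h5 : twn T D = 1 + 4 * (twn T D / 4) := by
      have h5 := hTc.ps.mod
      rw [hTc.prod] at h5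
      omega
    rw [← fin_iff ℚ h5, ← E_eq h5]
    obtain ⟨-, -, -, h6, -⟩ := core (show Adm (twn T D) from hTc)
    exact (h6.2 h4).1
  refine ⟨?_, ?_⟩
  · rw [h2]
    exact (fin_iff F hj).2 h3
  · rw [h2]
    exact (rk_AX F hj).trans h3

theorem good_iff {D : ℕ} (hD : Family D) : Good S D ↔ Gf (multiquadratic S) D := by
  have hS' : ∀ m ∈ S, Cl m := hS
  have hD' : Cl D := hD
  constructor
  · rintro ⟨-, h⟩ m hm hsq
    exact (sel_det (show Adm (Joint.tw m D) from cl_tw hm hD')).1 (h m hm hsq)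
  · intro hG
    obtain ⟨L, h1, h2, h3⟩ := cont hS hD
    obtain ⟨h4, h5⟩ := fin_F hS hD hG
    have h6 : analyticOrderAt L 1 = 0 := analyticOrderAt_eq_zero.2 (Or.inr (h3 hG))
    refine ⟨⟨L, h1, h2, by rw [h6, h5]; rfl, h6, h4⟩, fun m hm hsq => ?_⟩
    exact (sel_det (show Adm (Joint.tw m D) from cl_tw hm hD')).2 (hG m hm hsq)

end proof

open Pool.Agent.V5helper50.MQ in
open Pool.Agent.R413.SQ (Joint.tw Joint.num Joint.low_of) in
open Pool.Agent.Results.MP_4a9ea6_nt.TwoPartTwistsX49 (Adm mat) in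
open Pool.Agent.Results.MP_03e5d0_nt.FullClassX49 (sel_det num_num) in
theorem result :
    (∀ S : Finset ℕ, (∀ m ∈ S, Family m) → ∀ D : ℕ, Family D →
      (∃ L : ℂ → ℂ, Differentiable ℂ L ∧
        ∀ s : ℂ, 2 < s.re → L s = (curve D (multiquadratic S)).LSeries s) ∧
      ((∀ m, Family m → HasSqrt (multiquadratic S) m → RankZeroShaTwo (tw m D)) → Good S D)) ∧
    (∀ S T V : Finset ℕ, (∀ m ∈ S, Family m) → (∀ M ∈ T, Family M) → V ⊆ T →
      (∀ M ∈ T, ∀ M' ∈ T, HasSqrt (multiquadratic S) (tw M M') → M = M') →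
      Tendsto (fun X : ℕ => (num (fun D => ∀ M ∈ T, (Good S (tw M D) ↔ M ∈ V)) X : ℝ) /
        (num (fun _ => True) X : ℝ)) atTop
        (𝓝 ((c ^ Module.finrank ℚ (multiquadratic S)) ^ V.card *
          (1 - c ^ Module.finrank ℚ (multiquadratic S)) ^ (T.card - V.card))) ∧
      ((∀ M ∈ T, Good S M) →
        Tendsto (fun X : ℕ => (num (fun D => ∀ M ∈ T, (Good (insert D S) M ↔ M ∈ V)) X : ℝ) /
          (num (fun _ => True) X : ℝ)) atTop
          (𝓝 ((c ^ Module.finrank ℚ (multiquadratic S)) ^ V.card *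
            (1 - c ^ Module.finrank ℚ (multiquadratic S)) ^ (T.card - V.card))) ∧
        ∃ (a : ℝ) (X₀ : ℕ), 0 < a ∧ ∀ X : ℕ, X₀ ≤ X → a * X / Real.sqrt (Real.log X) ≤
          (num (fun D => ∀ M ∈ T, (Good (insert D S) M ↔ M ∈ V)) X : ℝ))) ∧
    (∀ S : Finset ℕ, (∀ m ∈ S, Family m) → ∀ M D : ℕ, Family M → Family D →
      (Good (insert D S) M ↔ Good S M ∧ Good S (tw M D))) ∧
    Good ∅ 1 ∧ 0.4194 < c ∧ c < 0.4195 := by
  have hcc : Pool.Agent.Y703.CQ.c2 = c := rfl
  have hc1 : 0.4194 < c := Pool.Agent.Y948.CQ.t_C2.2.2.2.1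
  have hc2 : c < 0.4195 := Pool.Agent.Y948.CQ.t_C2.2.2.2.2
  have hlaw : ∀ S T V : Finset ℕ, (∀ m ∈ S, Family m) → (∀ M ∈ T, Family M) → V ⊆ T →
      (∀ M ∈ T, ∀ M' ∈ T, HasSqrt (multiquadratic S) (tw M M') → M = M') →
      Tendsto (fun X : ℕ => (num (fun D => ∀ M ∈ T, (Good S (tw M D) ↔ M ∈ V)) X : ℝ) /
        (num (fun _ => True) X : ℝ)) atTop
        (𝓝 ((c ^ Module.finrank ℚ (multiquadratic S)) ^ V.card *
          (1 - c ^ Module.finrank ℚ (multiquadratic S)) ^ (T.card - V.card))) := by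
    intro S T V hS hT hV hTF
    have h := Pool.Agent.V5helper50.MQ.law_F (S := S) hS (multiquadratic S) rfl (T := T) (V := V) hT
      hV hTF
    rw [hcc, Finset.card_sdiff_of_subset hV] at h
    refine h.congr fun X => ?_
    rw [num_num (Q := fun D => ∀ M ∈ T, (Good S (tw M D) ↔ M ∈ V))
        (R := fun D => ∀ M ∈ T, (Gf (multiquadratic S) (Joint.tw M D) ↔ M ∈ V))
        (fun D hD => forall₂_congr fun M hM => ?_) X,
      num_num (Q := fun _ => True) (R := fun _ => True) (fun _ _ => Iff.rfl) X]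
    rw [show (Good S (tw M D) ↔ Gf (multiquadratic S) (Joint.tw M D)) from
      good_iff hS (cl_tw (hT M hM) hD)]
  have hquad : ∀ S : Finset ℕ, (∀ m ∈ S, Family m) → ∀ M D : ℕ, Family M → Family D →
      (Good (insert D S) M ↔ Good S M ∧ Good S (tw M D)) := by
    intro S hS M D hM hD
    have hS' : ∀ m ∈ insert D S, Family m := by
      intro k hk
      rcases Finset.mem_insert.1 hk with rfl | hk
      · exact hD
      · exact hS k hk
    obtain ⟨z, hz⟩ : ∃ z : ℂ, z ^ 2 = (D : ℂ) := IsAlgClosed.exists_pow_nat_eq _ (by norm_num)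
    have h1 := gf_quad hS (multiquadratic S) rfl hD (multiquadratic (insert D S)) hz
      (mqn_insert S D hz) hM
    rw [good_iff hS' hM, good_iff hS hM, h1]
    exact and_congr_right fun _ => (good_iff hS (cl_tw hM hD)).symm
  have hcpos : 0 < c := by linarith
  refine ⟨fun S hS D hD => ⟨?_, fun h => ?_⟩, fun S T V hS hT hV hTF => ⟨hlaw S T V hS hT hV hTF,
    fun hG => ?_⟩, hquad, ?_, hc1, hc2⟩
  · obtain ⟨L, h1, h2, -⟩ := cont hS hD
    exact ⟨L, h1, h2⟩
  · refine (good_iff hS hD).2 fun m hm hsq => ?_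
    exact (sel_det (show Adm (Joint.tw m D) from cl_tw hm hD)).1 (h m hm hsq)
  · have h1 : Tendsto (fun X : ℕ =>
        (num (fun D => ∀ M ∈ T, (Good (insert D S) M ↔ M ∈ V)) X : ℝ) /
          (num (fun _ => True) X : ℝ)) atTop
          (𝓝 ((c ^ Module.finrank ℚ (multiquadratic S)) ^ V.card *
            (1 - c ^ Module.finrank ℚ (multiquadratic S)) ^ (T.card - V.card))) := by
      refine (hlaw S T V hS hT hV hTF).congr fun X => ?_
      congr 2
      rw [num_num (Q := fun D => ∀ M ∈ T, (Good S (tw M D) ↔ M ∈ V))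
          (R := fun D => ∀ M ∈ T, (Good (insert D S) M ↔ M ∈ V))
          (fun D hD => forall₂_congr fun M hM => ?_) X,
        num_num (Q := fun D => ∀ M ∈ T, (Good (insert D S) M ↔ M ∈ V))
          (R := fun D => ∀ M ∈ T, (Good (insert D S) M ↔ M ∈ V)) (fun _ _ => Iff.rfl) X]
      rw [hquad S hS M D (hT M hM) hD]
      exact ⟨fun h => ⟨fun h' => h.1 h'.2, fun h' => ⟨hG M hM, h.2 h'⟩⟩,
        fun h => ⟨fun h' => h.1 ⟨hG M hM, h'⟩, fun h' => (h.2 h').2⟩⟩
    refine ⟨h1, ?_⟩
    have h3 : 0 < (c ^ Module.finrank ℚ (multiquadratic S)) ^ V.card *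
        (1 - c ^ Module.finrank ℚ (multiquadratic S)) ^ (T.card - V.card) := by
      have k1 : 0 < c ^ Module.finrank ℚ (multiquadratic S) := by positivity
      have k2 : 0 < 1 - c ^ Module.finrank ℚ (multiquadratic S) := by
        have := pow_lt_one₀ hcpos.le (show c < 1 by linarith)
          (Module.finrank_pos (R := ℚ) (M := multiquadratic S)).ne'
        linarith
      positivity
    have h4 : ∀ X : ℕ, (num (fun D => ∀ M ∈ T, (Good (insert D S) M ↔ M ∈ V)) X : ℝ) =
        Joint.num (fun D => ∀ M ∈ T, (Good (insert D S) M ↔ M ∈ V)) X := fun X => by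
      rw [num_num (Q := fun D => ∀ M ∈ T, (Good (insert D S) M ↔ M ∈ V))
          (R := fun D => ∀ M ∈ T, (Good (insert D S) M ↔ M ∈ V)) (fun _ _ => Iff.rfl) X]
    have h5 : ∀ X : ℕ, (num (fun _ => True) X : ℝ) = Joint.num (fun _ => True) X := fun X => by
      rw [num_num (Q := fun _ => True) (R := fun _ => True) (fun _ _ => Iff.rfl) X]
    simp only [h4, h5] at h1 ⊢
    exact Joint.low_of h3 h1
  · have hS0 : ∀ m ∈ (∅ : Finset ℕ), Family m := fun m hm => absurd hm (Finset.notMem_empty m)
    have h1c : Cl 1 := cl_one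
    refine (good_iff hS0 h1c).2 ?_
    intro m hm hsq
    have h1 : m.primeFactors ∈ XF (multiquadratic ∅) (S0 ∅) :=
      (sq_iff hS0 (multiquadratic ∅) rfl hm).1 hsq
    have h2 : m.primeFactors = ∅ := by
      have := (mem_XF.1 h1).1
      have h3 : S0 ∅ = ∅ := rfl
      rw [h3] at this
      exact Finset.subset_empty.1 this
    have h3 : m = 1 := cl_ext hm h1c (by rw [h2]; simp)
    rw [h3, tw_self h1c]
    have h4 : IsEmpty (Pool.Agent.Results.MP_4a9ea6_nt.TwoPartTwistsX49.split 1) := by
      refine ⟨fun x => ?_⟩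
      have := x.2
      unfold Pool.Agent.Results.MP_4a9ea6_nt.TwoPartTwistsX49.split at this
      simp at this
    rw [Matrix.det_isEmpty]
    exact one_ne_zero

end Pool.Agent.Results.MP_cd906c_nt.RandomMultiquadraticFields
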