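import Pool.Agent.V5helper41.ST.Br

/-!
# Infinite towers of number fields over which the rank part of the conjecture of Birch and
Swinnerton-Dyer does not change, for all the curves `E_D` with primes in a given finite set

`K = ℚ(ω)` and `E_D : y² + D y = x³` (`3`-isogenous to `x³ + y³ = D`).  For every `m ≠ 0` in `𝓞 K` we
construct an infinite sequence `d₀, d₁, d₂, ...` of squarefree elements of `𝓞 K`, prime to `3 m` and to
each other, with the following property.  Let `F_k = K(∛d₀, ..., ∛d_{k-1})`, a Galois extension of `K`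
of degree `3 ^ k`.  For ALL the (cube-free) `D ≡ ± 1` modulo `3` composed of primes dividing `m`, with
norm not `1` modulo `9`, and for all `k`:

* the `L`-function `L(E_D / F_k, s)` (all Euler factors, from minimal models) has a meromorphic
  continuation to `ℂ`, analytic at `s = 1`, and its order of vanishing at `s = 1` is the same as the one
  of `L(E_D / K, s)`;
* the rank of `E_D(F_k)` is the rank of `E_D(K)`;
* so the rank part of the conjecture for `E_D` over `F_k` is EQUIVALENT to the one over `K`, and for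
  rational integers `D` to the one over `ℚ`, whatever the rank is;
* for all the cubic twists `E_{D'}`, `D' = D d₀^{t₀} ... d_{k-1}^{t_{k-1}}`, `t ≠ 0`, the rank part is
  true over `K`, with order and rank `0`.

For example `E_D` over `ℚ` of analytic rank `1` (as `D = 7`) satisfies the rank part over `ℚ` by the
theorems of Gross-Zagier and Kolyvagin, and it follows that it satisfies it over all the `F_k`, with order
and rank `2`.

The proof.  (1) A lemma on networks of cubic residue symbols: for every finite set `P` of primary primes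
there is a finite set `Q` of new primes such that for all the weights that are arbitrary on `P` and
constant and not zero on `Q` the kernel of the weighted Laplacian of the symbols on `P ∪ Q` is trivial
(`Q`: one prime `a` and for each `μ ∈ P` two primes `λ`, joined with `a` and, with the symbols `1` and
`-1`, with `μ`).  (2) By the library, for such a network `L(E_{D'} / K, s)` is not zero at `s = 1` (a
`3`-adic valuation of the central value) and `E_{D'}(K)` is finite (descent).  (3) The `L`-function and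
the Mordell-Weil group over `F_k` are, up to finitely many Euler factors and up to finite groups, the
products over all the twists; only the twist with `t = 0` is not controlled, and it is the curve itself.
-/

set_option autoImplicit false

namespace Pool.Agent.Results.MP_cd906c_nt.StableCubicTowers

open NumberField IsDedekindDomain
open scoped Classical

/-- The curve `E_D : y² + D y = x³`. -/
def curve {L : Type} [Field L] (D : L) : WeierstrassCurve L := ⟨0, 0, D, 0, 0⟩

section field

variable {L : Type} [Field L] [NumberField L]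

/-- `V v` is, for every prime `v`, an integral model of `E` with discriminant minimal at `v`. -/
def MinimalModels (E : WeierstrassCurve L)
    (V : HeightOneSpectrum (𝓞 L) → WeierstrassCurve (𝓞 L)) : Prop :=
  ∀ v : HeightOneSpectrum (𝓞 L),
    (∃ C : WeierstrassCurve.VariableChange L, C • (V v).map (algebraMap (𝓞 L) L) = E) ∧
    ∀ W : WeierstrassCurve (𝓞 L),
      (∃ C : WeierstrassCurve.VariableChange L, C • W.map (algebraMap (𝓞 L) L) = E) →
        ∀ n : ℕ, (V v).Δ ∈ v.asIdeal ^ n → W.Δ ∈ v.asIdeal ^ n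

/-- The Euler factor at `v`, computed from the reduction of `V v`: `(1 - a_v q_v^{-s} + q_v^{1-2s})⁻¹` if
the reduction is good and `(1 - a_v q_v^{-s})⁻¹` if it is bad, where `a_v` is `q_v` minus the number of
affine points of the reduction (so `a_v = 1`, `-1`, `0` in the cases of split multiplicative, non-split
multiplicative and additive reduction). -/
noncomputable def factor (V : HeightOneSpectrum (𝓞 L) → WeierstrassCurve (𝓞 L)) (s : ℂ)
    (v : HeightOneSpectrum (𝓞 L)) : ℂ :=
  (1 - ((Ideal.absNorm v.asIdeal : ℂ)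
        - (Nat.card {xy : (𝓞 L ⧸ v.asIdeal) × (𝓞 L ⧸ v.asIdeal) //
            ((V v).map (Ideal.Quotient.mk v.asIdeal)).toAffine.Equation xy.1 xy.2} : ℂ))
        * (Ideal.absNorm v.asIdeal : ℂ) ^ (-s)
    + (if (V v).Δ ∈ v.asIdeal then 0 else (Ideal.absNorm v.asIdeal : ℂ))
        * (Ideal.absNorm v.asIdeal : ℂ) ^ (-2 * s))⁻¹

/-- `Λ` is the `L`-function of `E` over `L`: it is meromorphic on `ℂ` and for `Re s > 3/2` it is the
convergent Euler product over all primes, whatever the minimal models. -/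
def IsLFunction (E : WeierstrassCurve L) (Λ : ℂ → ℂ) : Prop :=
  MeromorphicOn Λ Set.univ ∧
    ∀ V : HeightOneSpectrum (𝓞 L) → WeierstrassCurve (𝓞 L), MinimalModels E V →
      ∀ s : ℂ, 3 / 2 < s.re → HasProd (factor V s) (Λ s)

/-- The analytic rank of `E` over `L` exists and is `n`: `E` has minimal models, and the `L`-function
continues to `ℂ`, is analytic at `s = 1` and has there a zero of order exactly `n`. -/
def AnalyticRank (E : WeierstrassCurve L) (n : ℕ) : Prop :=
  (∃ V : HeightOneSpectrum (𝓞 L) → WeierstrassCurve (𝓞 L), MinimalModels E V) ∧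
    ∃ Λ : ℂ → ℂ, IsLFunction E Λ ∧ AnalyticAt ℂ Λ 1 ∧ analyticOrderAt Λ 1 = n

/-- The rank part of the conjecture for `E` over `L`. -/
def RankConjecture (E : WeierstrassCurve L) : Prop :=
  ∃ n : ℕ, AnalyticRank E n ∧ Module.rank ℤ E.toAffine.Point = n

end field

/-- The rank of `E` over `L` is `c` times the rank of `E'` over `L'`; the analytic rank of `E'` exists,
and the analytic rank of `E` is `c` times it; and the rank part of the conjecture is true for `E` over
`L` if and only if it is true for `E'` over `L'`. -/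
def Multiple (c : ℕ) {L : Type} [Field L] [NumberField L] (E : WeierstrassCurve L)
    {L' : Type} [Field L'] [NumberField L'] (E' : WeierstrassCurve L') : Prop :=
  Module.rank ℤ E.toAffine.Point = c * Module.rank ℤ E'.toAffine.Point ∧
  (∃ n : ℕ, AnalyticRank E' n) ∧ (∀ n : ℕ, AnalyticRank E' n ↔ AnalyticRank E (c * n)) ∧
  (RankConjecture E ↔ RankConjecture E')

section class_

variable {K : Type} [Field K] [NumberField K]

/-- `D` is `1` or `-1` modulo `3`, cube-free, its norm is not `1` modulo `9`, and the primes dividing `D`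
divide `m`. -/
def InClass (m D : 𝓞 K) : Prop :=
  ((3 : 𝓞 K) ∣ D - 1 ∨ (3 : 𝓞 K) ∣ D + 1) ∧ (∀ x : 𝓞 K, x ^ 3 ∣ D → IsUnit x) ∧
    ¬ (9 : ℤ) ∣ Algebra.norm ℤ D - 1 ∧ ∀ p : 𝓞 K, Prime p → p ∣ D → p ∣ m

/-- `F = K(∛(d 0), ..., ∛(d (k - 1)))`. -/
def Generated (d : ℕ → 𝓞 K) (k : ℕ) (F : Type) [Field F] [Algebra K F] : Prop :=
  ∃ x : ℕ → F, (∀ i, i < k → x i ^ 3 = algebraMap K F (d i : K)) ∧
    ∀ L : Subfield F, (∀ y : K, algebraMap K F y ∈ L) → (∀ i, i < k → x i ∈ L) → L = ⊤

end class_

section proof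

open Pool.Agent.Y692.QS hiding chi red
open Pool.Agent.Y715.T.RecG (Pq)
open Pool.Agent.Y703.CT (IsHL Dt pD Ker)
open Pool.Agent.Y699.E (PD mem_PD)
open Pool.Agent.R432.C (ED pq_dvd)
open Pool.Agent.H341R2.EC (IsModel IsMinAt red aff trc dlt)
open Pool.Agent.R433.MD (lf exists_minimal)
open Pool.Agent.H921R2.TatePole (nm two_le_nm)
open Pool.Agent.V5helper41.ST

section bridge
variable {K : Type} [Field K] [NumberField K]

omit [NumberField K] in
theorem isModel_iff (E : WeierstrassCurve K) (W : WeierstrassCurve (𝓞 K)) :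
    (∃ C : WeierstrassCurve.VariableChange K, C • W.map (algebraMap (𝓞 K) K) = E) ↔
      IsModel E W := by
  constructor
  · rintro ⟨C, hC⟩
    exact ⟨C⁻¹, by rw [← hC, inv_smul_smul]⟩
  · rintro ⟨C, hC⟩
    exact ⟨C⁻¹, by rw [← hC, inv_smul_smul]⟩

omit [NumberField K] in
theorem minimalModels_iff (E : WeierstrassCurve K)
    (V : HeightOneSpectrum (𝓞 K) → WeierstrassCurve (𝓞 K)) :
    MinimalModels E V ↔ ∀ v, IsMinAt E v (V v) := by
  unfold MinimalModels IsMinAt
  simp only [isModel_iff]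

theorem factor_eq (V : HeightOneSpectrum (𝓞 K) → WeierstrassCurve (𝓞 K)) (s : ℂ)
    (v : HeightOneSpectrum (𝓞 K)) : factor V s v = (lf V s v)⁻¹ := by
  unfold factor
  congr 1
  unfold lf trc dlt
  have h0 : ((nm v : ℕ) : ℂ) ≠ 0 := by
    have := two_le_nm v
    exact_mod_cast (by omega : nm v ≠ 0)
  have e1 : Nat.card {xy : (𝓞 K ⧸ v.asIdeal) × (𝓞 K ⧸ v.asIdeal) //
      ((V v).map (Ideal.Quotient.mk v.asIdeal)).toAffine.Equation xy.1 xy.2} =
      aff (red v (V v)) := by
    unfold aff red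
    refine Nat.card_congr (Equiv.subtypeEquivRight fun xy => ?_)
    rw [WeierstrassCurve.Affine.equation_iff]
  have e2 : ((nm v : ℕ) : ℂ) ^ (1 - 2 * s) = ((nm v : ℕ) : ℂ) * ((nm v : ℕ) : ℂ) ^ (-2 * s) := by
    rw [sub_eq_add_neg, Complex.cpow_add _ _ h0, Complex.cpow_one]
    congr 2
    ring
  have e3 : (Ideal.absNorm v.asIdeal : ℂ) = ((nm v : ℕ) : ℂ) := rfl
  rw [e1, e2, e3]
  push_cast
  split_ifs with h
  · ring
  · ring

/-- the analytic rank from the theorems of the helper files -/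
theorem analyticRank_of {E : WeierstrassCurve K} (hE : E.IsElliptic) {Λ : ℂ → ℂ} {n : ℕ}
    (h1 : MeromorphicOn Λ Set.univ) (h2 : AnalyticAt ℂ Λ 1)
    (h3 : ∀ V : HeightOneSpectrum (𝓞 K) → WeierstrassCurve (𝓞 K), (∀ v, IsMinAt E v (V v)) →
      ∀ s : ℂ, 3 / 2 < s.re → HasProd (fun v => (lf V s v)⁻¹) (Λ s))
    (h4 : analyticOrderAt Λ 1 = n) : AnalyticRank E n := by
  obtain ⟨V0, hV0⟩ := exists_minimal E hE
  refine ⟨⟨V0, (minimalModels_iff _ _).2 hV0⟩, Λ, ⟨h1, fun V hV s hs => ?_⟩, h2, h4⟩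
  exact (h3 V ((minimalModels_iff _ _).1 hV) s hs).congr_fun fun v => (factor_eq V s v)

/-- the analytic rank is unique -/
theorem analyticRank_unique {E : WeierstrassCurve K} {n n' : ℕ} (h : AnalyticRank E n)
    (h' : AnalyticRank E n') : n = n' := by
  obtain ⟨⟨V, hV⟩, Λ, ⟨h1, h2⟩, h3, h4⟩ := h
  obtain ⟨-, Λ', ⟨h1', h2'⟩, h3', h4'⟩ := h'
  have h5 := order_unique h1 h1' h3 h3' fun s hs => (h2 V hV s hs).unique (h2' V hV s hs)
  rw [h4, h4'] at h5
  exact_mod_cast h5

theorem rankConjecture_iff {E : WeierstrassCurve K} {n : ℕ} (h : AnalyticRank E n) :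
    RankConjecture E ↔ Module.rank ℤ E.toAffine.Point = n := by
  constructor
  · rintro ⟨n', h1, h2⟩
    rw [h2, analyticRank_unique h h1]
  · intro h1
    exact ⟨n, h, h1⟩

end bridge

theorem card_cancel {c n : ℕ} (hc : c ≠ 0) {a : Cardinal.{0}} :
    (c : Cardinal.{0}) * a = ((c * n : ℕ) : Cardinal.{0}) ↔ a = (n : Cardinal.{0}) := by
  constructor
  · intro h
    have hc' : (c : Cardinal.{0}) ≠ 0 := by exact_mod_cast hc
    have h1 : a < Cardinal.aleph0 := by
      by_contra hcon
      push Not at hcon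
      have h2 : a ≤ (c : Cardinal.{0}) * a := Cardinal.le_mul_left hc'
      rw [h] at h2
      exact absurd (hcon.trans h2) (not_le.2 (Cardinal.natCast_lt_aleph0))
    obtain ⟨b, rfl⟩ := Cardinal.lt_aleph0.1 h1
    have h3 : c * b = c * n := by exact_mod_cast h
    exact_mod_cast Nat.eq_of_mul_eq_mul_left (Nat.pos_of_ne_zero hc) h3
  · intro h
    rw [h]
    push_cast
    rfl

theorem multiple_of {c : ℕ} (hc : c ≠ 0) {L : Type} [Field L] [NumberField L]
    {E : WeierstrassCurve L} {L' : Type} [Field L'] [NumberField L'] {E' : WeierstrassCurve L'}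
    (h1 : Module.rank ℤ E.toAffine.Point = c * Module.rank ℤ E'.toAffine.Point)
    {n : ℕ} (h2 : AnalyticRank E' n) (h3 : AnalyticRank E (c * n)) : Multiple c E E' := by
  refine ⟨h1, ⟨n, h2⟩, fun n' => ⟨fun h => ?_, fun h => ?_⟩, ?_⟩
  · rw [← analyticRank_unique h2 h]
    exact h3
  · have h4 := analyticRank_unique h3 h
    have h5 := Nat.eq_of_mul_eq_mul_left (Nat.pos_of_ne_zero hc) h4
    rw [← h5]
    exact h2
  · rw [rankConjecture_iff h2, rankConjecture_iff h3, h1]
    exact card_cancel hc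

theorem Multiple.comp {c : ℕ} {L : Type} [Field L] [NumberField L]
    {E : WeierstrassCurve L} {L' : Type} [Field L'] [NumberField L'] {E' : WeierstrassCurve L'}
    {L'' : Type} [Field L''] [NumberField L''] {E'' : WeierstrassCurve L''}
    (h : Multiple 1 E E') (h' : Multiple c E' E'') : Multiple c E E'' := by
  obtain ⟨h1, h2, h3, h4⟩ := h
  obtain ⟨h1', h2', h3', h4'⟩ := h'
  refine ⟨by rw [h1, h1', Nat.cast_one, one_mul], h2', fun n => ?_, h4.trans h4'⟩
  have h5 := h3 (c * n)
  rw [one_mul] at h5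
  exact (h3' n).trans h5

section tower

variable {K : Type} [Field K] [NumberField K] (j : Ei ≃+* 𝓞 K)
variable {M : Finset Ei} {Q : ℕ → Finset Ei}

/-- the values of the orders, over an extension -/
theorem anF (hM : ∀ p ∈ M, Pq p) (hQ : Seq M Q) {w : Ei → ZMod 3}
    (h9 : ¬ (9 : ℤ) ∣ nr (pw M w) - 1) {D : Ei} (hD : D = pw M w ∨ D = -pw M w)
    {F0 : ℂ → ℂ} (hF0 : IsHL (fun x : Act M w => x.1) (fun x => -w x.1) F0) {k : ℕ}
    {F : Type} [Field F] [NumberField F] [Algebra K F] (x : Fin k → F)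
    (hx : ∀ i, x i ^ 3 = algebraMap K F ((j (dd Q i) : 𝓞 K) : K))
    (hgen : ∀ L : Subfield F, (∀ y : K, algebraMap K F y ∈ L) → (∀ i, x i ∈ L) → L = ⊤)
    {n : ℕ} (hn : analyticOrderAt F0 1 = n) :
    AnalyticRank (curve (algebraMap K F ((j D : 𝓞 K) : K))) (2 * n) := by
  obtain ⟨Λ, h1, h2, h3, h4, -⟩ := ord_T j hM hQ h9 hD hF0 x hx hgen
  have hD0 : D ≠ 0 := by
    have h1 : pw M w ≠ 0 := Finset.prod_ne_zero_iff.2 fun x hx =>
      pow_ne_zero _ (hM x hx).prime.ne_zero
    rcases hD with h | h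
    · rw [h]; exact h1
    · rw [h]; exact neg_ne_zero.2 h1
  have hE : (ED (algebraMap K F ((j D : 𝓞 K) : K))).IsElliptic := by
    have h5 : algebraMap (𝓞 K) (𝓞 F) (j D) ≠ 0 := by
      intro h
      have h6 := (map_eq_zero_iff _ (RingOfIntegers.algebraMap.injective K F)).1 h
      exact hD0 ((map_eq_zero_iff j j.injective).1 h6)
    exact ellc h5
  refine analyticRank_of hE h1 h2 h3 ?_
  rw [h4, hn]
  push_cast
  rfl

/-- the order of a function `F0` is finite -/
theorem exists_F0 (j : Ei ≃+* 𝓞 K) (hM : ∀ p ∈ M, Pq p) (hQ : Seq M Q) {w : Ei → ZMod 3}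
    (h9 : ¬ (9 : ℤ) ∣ nr (pw M w) - 1) : ∃ (F0 : ℂ → ℂ) (n : ℕ),
      IsHL (fun x : Act M w => x.1) (fun x => -w x.1) F0 ∧ analyticOrderAt F0 1 = n := by
  have hne := act_ne h9
  obtain ⟨F0, hF0, -⟩ := Pool.Agent.Y715.CT.AN1b.an1b _ _ _ (net_dt hM w).neg
  obtain ⟨Λ, -, -, -, h4, h5⟩ := ord_T j hM hQ h9 (Or.inl rfl) hF0 (k := 0) (F := K)
    (fun i => i.elim0) (fun i => i.elim0) (fun L h _ => by
      rw [eq_top_iff]
      intro y _
      exact h y)
  have h6 : analyticOrderAt F0 1 ≠ ⊤ := by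
    intro h
    rw [h] at h4
    rw [h4] at h5
    exact h5 (by decide)
  obtain ⟨n, hn⟩ := ENat.ne_top_iff_exists.1 h6
  exact ⟨F0, n, hF0, hn.symm⟩

end tower

theorem main (K : Type) [Field K] [NumberField K] [IsCyclotomicExtension {3} ℚ K] (m : 𝓞 K)
    (hm : m ≠ 0) : ∃ d : ℕ → 𝓞 K,
      (∀ i, Squarefree (d i) ∧ ¬ IsUnit (d i)) ∧
      (∀ i (p : 𝓞 K), Prime p → p ∣ d i → ¬ p ∣ 3 * m ∧ ∀ l, l ≠ i → ¬ p ∣ d l) ∧
      ∀ k : ℕ,
        (∀ D : 𝓞 K, InClass m D → ∀ t : Fin k → ZMod 3, t ≠ 0 →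
          AnalyticRank (curve ((D * ∏ i : Fin k, d i ^ (t i).val : 𝓞 K) : K)) 0 ∧
            Finite (curve ((D * ∏ i : Fin k, d i ^ (t i).val : 𝓞 K) : K)).toAffine.Point) ∧
        (∃ (F : Type) (_ : Field F) (_ : NumberField F) (_ : Algebra K F), Generated d k F) ∧
        ∀ (F : Type) [Field F] [NumberField F] [Algebra K F], Generated d k F →
          IsGalois K F ∧ Module.finrank K F = 3 ^ k ∧
          (∀ D : 𝓞 K, InClass m D → Multiple 1 (curve (algebraMap K F (D : K))) (curve (D : K))) ∧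
          ∀ D : ℕ, InClass m (D : 𝓞 K) → Multiple 2 (curve (D : F)) (curve (D : ℚ)) := by
  obtain ⟨⟨j, hj⟩, -⟩ := Pool.Agent.Y455.CTK.jex K
  obtain ⟨m', rfl⟩ := j.surjective m
  have hm' : m' ≠ 0 := fun h => hm (by rw [h, map_zero])
  have hM : ∀ p ∈ PD m', Pq p := fun p hp => ((mem_PD hm').1 hp).1
  obtain ⟨Q, hQ, -⟩ := exists_seq (PD m') hM ∅
  have hpr : ∀ i (p : 𝓞 K), Prime p → p ∣ j (dd Q i) → ∃ x ∈ Q i, j x ∣ p := by
    intro i p hp hd
    have h1 : Prime (j.symm p) := (MulEquiv.prime_iff (j.symm : 𝓞 K ≃* Ei)).2 hp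
    have h2 : j.symm p ∣ dd Q i := by
      have := map_dvd j.symm hd
      rwa [RingEquiv.symm_apply_apply] at this
    obtain ⟨x, hx, hxd⟩ := (h1.dvd_finsetProd_iff _).1 h2
    refine ⟨x, hx, ?_⟩
    have h3 := (h1.associated_of_dvd ((hQ i).pq x hx).prime hxd).symm.dvd
    have := map_dvd j h3
    rwa [RingEquiv.apply_symm_apply] at this
  have hcl : ∀ D' : Ei, InClass (j m') (j D') → ∃ w : Ei → ZMod 3,
      (D' = pw (PD m') w ∨ D' = -pw (PD m') w) ∧ ¬ (9 : ℤ) ∣ nr (pw (PD m') w) - 1 := by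
    rintro D' ⟨h1, h2, h3, h4⟩
    refine br hm' ?_ (fun x hx => ?_) (by rwa [hj] at h3) fun p hp hd => ?_
    · rcases h1 with h | h
      · left
        have := map_dvd j.symm h
        rwa [map_sub, map_one, map_ofNat, RingEquiv.symm_apply_apply] at this
      · right
        have := map_dvd j.symm h
        rwa [map_add, map_one, map_ofNat, RingEquiv.symm_apply_apply] at this
    · have h5 := h2 (j x) (by rw [← map_pow]; exact map_dvd j hx)
      exact (MulEquiv.isUnit_map j).1 h5
    · have h5 := h4 (j p) ((MulEquiv.prime_iff (j : Ei ≃* 𝓞 K)).2 hp) (map_dvd j hd)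
      exact (map_dvd_iff j).1 h5
  refine ⟨fun i => j (dd Q i), fun i => ⟨?_, ?_⟩, fun i p hp hd => ⟨fun h => ?_, fun l hl h => ?_⟩,
    fun k => ⟨fun D hD t ht => ?_, ?_, ?_⟩⟩
  · -- squarefree
    have h1 : Squarefree (dd Q i) := by
      unfold dd
      refine Finset.squarefree_prod_of_pairwise_isCoprime (fun x hx y hy hne => ?_)
        fun x hx => ((hQ i).pq x hx).prime.irreducible.squarefree
      exact (Pool.Agent.Y699.E.pq_cop ((hQ i).pq x hx) ((hQ i).pq y hy) hne).isRelPrime
    intro x hx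
    have h2 := map_dvd j.symm hx
    rw [map_mul, RingEquiv.symm_apply_apply] at h2
    exact (MulEquiv.isUnit_map j.symm).1 (h1 _ h2)
  · -- not a unit
    intro h
    obtain ⟨x, hx⟩ := (hQ i).ne
    have h1 : IsUnit (dd Q i) := (MulEquiv.isUnit_map j).1 h
    exact ((hQ i).pq x hx).prime.not_isUnit (isUnit_of_dvd_unit
      (Finset.dvd_prod_of_mem (fun x => x) hx) h1)
  · obtain ⟨x, hx, hxp⟩ := hpr i p hp hd
    have h1 : j x ∣ j (3 * m') := by
      rw [map_mul, map_ofNat]
      exact hxp.trans h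
    have h2 := (map_dvd_iff j).1 h1
    have hxP := (hQ i).pq x hx
    rcases hxP.prime.dvd_or_dvd h2 with h3 | h3
    · have h4 := h3.trans hxP.three
      have h5 : x ∣ 1 := by
        have h6 := dvd_sub (dvd_refl x) h4
        rwa [sub_sub_cancel] at h6
      exact hxP.prime.not_dvd_one h5
    · exact hQ.disjM hx ((mem_PD hm').2 ⟨hxP, h3⟩)
  · obtain ⟨x, hx, hxp⟩ := hpr i p hp hd
    obtain ⟨y, hy, hyp⟩ := hpr l p hp h
    have hxP := (hQ i).pq x hx
    have hyP := (hQ l).pq y hy
    have h1 : j x ∣ j y := by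
      have h2 : Prime (j y) := (MulEquiv.prime_iff (j : Ei ≃* 𝓞 K)).2 hyP.prime
      exact hxp.trans (h2.associated_of_dvd hp hyp).symm.dvd
    have h2 := pq_dvd hxP hyP ((map_dvd_iff j).1 h1)
    rw [← h2] at hy
    exact hl (hQ.uniq hy hx)
  · -- the twists
    obtain ⟨D', rfl⟩ := j.surjective D
    obtain ⟨w, hw, h9⟩ := hcl D' hD
    have h9t := nine_T hQ h9 t
    have hpq := Seq.pq hM hQ k
    have hDt := net_dt hpq (uT (PD m') Q w t)
    have hKt := net_ker (good_T hQ w ht)
    have hne := act_ne h9t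
    obtain ⟨Q', hQ', -⟩ := exists_seq (PP (PD m') Q k) hpq ∅
    have hval := h9t
    rw [← net_pD] at hval
    obtain ⟨L0, h1, h2⟩ := Pool.Agent.Y696.CTE.val_ne hDt hKt hval
    have h3 : analyticOrderAt L0 1 = (0 : ℕ) := by
      rw [(h1.1.analyticAt 1).analyticOrderAt_eq_zero.2 h2]
      rfl
    have h4 : D' * ∏ i : Fin k, dd Q i ^ (t i).val = pw (PP (PD m') Q k) (uT (PD m') Q w t) ∨
        D' * ∏ i : Fin k, dd Q i ^ (t i).val =
          -pw (PP (PD m') Q k) (uT (PD m') Q w t) := by
      rw [pw_T hQ]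
      rcases hw with h | h
      · left; rw [h]
      · right; rw [h, neg_mul]
    have h5 := anF (K := K) (F := K) j hpq hQ' h9t h4 h1 (k := 0)
      (fun i => i.elim0) (fun i => i.elim0) (fun L h _ => by
        rw [eq_top_iff]
        intro y _
        exact h y) h3
    have h6 : j (D' * ∏ i : Fin k, dd Q i ^ (t i).val) =
        j D' * ∏ i : Fin k, j (dd Q i) ^ (t i).val := by
      rw [map_mul, map_prod]
      simp only [map_pow]
    rw [h6] at h5
    have h7 := fin_T j hM hQ h9 hw ht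
    unfold tw at h7
    rw [h6] at h7
    exact ⟨h5, h7⟩
  · -- existence
    obtain ⟨F, i1, i2, i3, x, h1, h2⟩ := exists_field (fun i => ((j (dd Q i) : 𝓞 K) : K)) k
    exact ⟨F, i1, i2, i3, x, h1, h2⟩
  · rintro F _ _ _ ⟨x, hx, hgen⟩
    have hx' : ∀ i : Fin k, x i ^ 3 = algebraMap K F ((j (dd Q i) : 𝓞 K) : K) :=
      fun i => hx i i.2
    have hgen' : ∀ L : Subfield F, (∀ y : K, algebraMap K F y ∈ L) →
        (∀ i : Fin k, x i ∈ L) → L = ⊤ := fun L h1 h2 => hgen L h1 fun i hi => h2 ⟨i, hi⟩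
    obtain ⟨h1, h2⟩ := degree j hM hQ (fun i : Fin k => x i) hx' hgen'
    have hK : ∀ L : Subfield K, (∀ y : K, algebraMap K K y ∈ L) →
        (∀ i : Fin 0, (fun i : Fin 0 => (i.elim0 : K)) i ∈ L) → L = ⊤ := fun L h _ => by
      rw [eq_top_iff]
      intro y _
      exact h y
    have hmul : ∀ D : 𝓞 K, InClass (j m') D →
        Multiple 1 (curve (algebraMap K F (D : K))) (curve (D : K)) := by
      intro D hD
      obtain ⟨D', rfl⟩ := j.surjective D
      obtain ⟨w, hw, h9⟩ := hcl D' hD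
      obtain ⟨F0, n, hF0, hn⟩ := exists_F0 j hM hQ h9
      have a1 := anF j hM hQ h9 hw hF0 (fun i : Fin k => x i) hx' hgen' hn
      have a2 := anF (K := K) (F := K) j hM hQ h9 hw hF0 (k := 0) (fun i => i.elim0)
        (fun i => i.elim0) hK hn
      have a3 := rank_T j hM hQ h9 hw (fun i : Fin k => x i) hx' hgen'
      exact multiple_of one_ne_zero (by rw [Nat.cast_one, one_mul]; exact a3) a2
        (by rw [one_mul]; exact a1)
    refine ⟨h1, h2, hmul, fun D hD => ?_⟩
    have hm1 := hmul D hD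
    have e1 : algebraMap K F ((D : 𝓞 K) : K) = (D : F) := by simp
    rw [e1] at hm1
    refine hm1.comp ?_
    have e2 : (D : 𝓞 K) = j (D : Ei) := by rw [map_natCast]
    rw [e2] at hD
    obtain ⟨w, hw, h9⟩ := hcl _ hD
    obtain ⟨F0, n, hF0, hn⟩ := exists_F0 j hM hQ h9
    have a2 := anF (K := K) (F := K) j hM hQ h9 hw hF0 (k := 0) (fun i => i.elim0)
      (fun i => i.elim0) hK hn
    have hD0 : D ≠ 0 := by
      rintro rfl
      have h5 : pw (PD m') w ≠ 0 := Finset.prod_ne_zero_iff.2 fun x hx =>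
        pow_ne_zero _ (hM x hx).prime.ne_zero
      rcases hw with h | h
      · exact h5 (by rw [← h]; simp)
      · exact h5 (by rw [← neg_eq_zero, ← h]; simp)
    rw [← net_pD] at hw
    obtain ⟨Λ, b1, b2, b3, b4, -⟩ := ordQ j (net_dt hM w) hD0 hw hF0
    have hEQ : (ED ((D : ℕ) : ℚ)).IsElliptic := by
      have h6 := ellc (L := ℚ) (c := (D : 𝓞 ℚ)) (Nat.cast_ne_zero.2 hD0)
      simpa using h6
    have a4 : AnalyticRank (curve (D : ℚ)) n := analyticRank_of hEQ b1 b2 b3 (by rw [b4, hn])
    have a5 := rank_KQ (K := K) (D := (D : ℚ)) (Nat.cast_ne_zero.2 hD0)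
    have e3 : algebraMap ℚ K (D : ℚ) = ((D : 𝓞 K) : K) := by simp
    rw [e3] at a5
    rw [← e2] at a2
    refine multiple_of two_ne_zero ?_ a4 a2
    rw [Nat.cast_ofNat, rank_inst (curve (D : ℚ)) _ instDecidableEqRat]
    exact a5

end proof

/-- **Main theorem.**  Let `K = ℚ(ω)` and `0 ≠ m ∈ 𝓞 K`.  There is an infinite sequence of squarefree
elements `d i ∈ 𝓞 K`, not units, prime to `3 m` and to each other, such that for every `k`:
the rank part of the conjecture is true, with order and rank zero, for all the curves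
`y² + D' y = x³` over `K`, `D' = D ∏_{i < k} (d i)^{t i}` with exponents `t i = 0, 1, 2`, not all zero,
`D` in the class; there is a field `F = K(∛(d 0), ..., ∛(d (k - 1)))`; it is a Galois extension of `K`
of degree `3 ^ k`; for all the `D` in the class the rank and the analytic rank of `E_D` over `F` are the
ones over `K`, and the rank part of the conjecture over `F` is equivalent to the one over `K`; and for
the natural numbers `D` in the class the rank and the analytic rank over `F` are twice the ones over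
`ℚ`, and the rank part of the conjecture over `F` is equivalent to the one over `ℚ`. -/
theorem result (K : Type) [Field K] [NumberField K] [IsCyclotomicExtension {3} ℚ K] (m : 𝓞 K)
    (hm : m ≠ 0) : ∃ d : ℕ → 𝓞 K,
      (∀ i, Squarefree (d i) ∧ ¬ IsUnit (d i)) ∧
      (∀ i (p : 𝓞 K), Prime p → p ∣ d i → ¬ p ∣ 3 * m ∧ ∀ l, l ≠ i → ¬ p ∣ d l) ∧
      ∀ k : ℕ,
        (∀ D : 𝓞 K, InClass m D → ∀ t : Fin k → ZMod 3, t ≠ 0 →
          AnalyticRank (curve ((D * ∏ i : Fin k, d i ^ (t i).val : 𝓞 K) : K)) 0 ∧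
            Finite (curve ((D * ∏ i : Fin k, d i ^ (t i).val : 𝓞 K) : K)).toAffine.Point) ∧
        (∃ (F : Type) (_ : Field F) (_ : NumberField F) (_ : Algebra K F), Generated d k F) ∧
        ∀ (F : Type) [Field F] [NumberField F] [Algebra K F], Generated d k F →
          IsGalois K F ∧ Module.finrank K F = 3 ^ k ∧
          (∀ D : 𝓞 K, InClass m D → Multiple 1 (curve (algebraMap K F (D : K))) (curve (D : K))) ∧
          ∀ D : ℕ, InClass m (D : 𝓞 K) → Multiple 2 (curve (D : F)) (curve (D : ℚ)) :=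
  main K m hm

end Pool.Agent.Results.MP_cd906c_nt.StableCubicTowers
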