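import Pool.Agent.V5helper50.MQ.Step
import Pool.Agent.Results.MP_cd906c_nt.RandomMultiquadraticFields

/-!
# Rank and order of vanishing of the twists of `X_0(49)` do not change in random quadratic extensions

`E_M` is the quadratic twist by `M` of `X_0(49)`, where `M ≥ 1` is squarefree with all prime factors
`≡ 1 mod 4` (admissible), and `F = ℚ(√m : m ∈ S)` any real multiquadratic field, `S` a finite set of
admissible numbers. The curves `E_M` have any rank over `F`: nothing is assumed on `E_M` and `F`.

* Let `T` be any finite set of admissible numbers. For at least the proportion `c ^ ([F : ℚ] #T)` of the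
  admissible `D`, `c = 0.4194...`, all the curves `E_M`, `M ∈ T`, have the same rank over `F(√D)` as over
  `F`, and their `L`-functions have the same order of vanishing at `s = 1` over `F(√D)` and over `F`. So
  the rank formula of Birch and Swinnerton-Dyer holds for `E_M` over `F(√D)` if and only if it holds over
  `F`.
* There are infinite towers `F = F_0 ⊂ F_1 ⊂ F_2 ⊂ ...` of such fields, `[F_k : F] = 2 ^ k`, such that
  the rank and the order of vanishing of `E_M` over `F_k` are the same for all `k` if `M ∈ T`, and for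
  all `k ≥ k₀(M)` for ALL the infinitely many admissible `M`. So all these curves have finite rank over
  the union of the fields `F_k`, and for each of them the rank formula holds over all the `F_k`,
  `k ≥ k₀(M)`, if it holds over one of them.

The proof: `L(E_M/F(√D), s) = L(E_M/F, s) L(E_{tw M D}/F, s)`, the rank is the sum of the ranks of the two
curves over `F`, and the exact law of `RandomMultiquadraticFields` for the second curve.
-/

set_option autoImplicit false

open NumberField IsDedekindDomain WeierstrassCurve Filter Topology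

namespace Pool.Agent.Results.MP_cd906c_nt.StableQuadraticExtensions

open Pool.Agent.Results.MP_92892c_nt.FullClassTwoPartX49 (Family num)
open Pool.Agent.Results.MP_03e5d0_nt.FullClassX49 (tw c)
open Pool.Agent.Results.MP_cd906c_nt.RandomMultiquadraticFields (curve multiquadratic rank)

/-- `L` is the entire continuation of the L-function of `E_M` over `F = multiquadratic S`. -/
def Continues (S : Finset ℕ) (M : ℕ) (L : ℂ → ℂ) : Prop :=
  Differentiable ℂ L ∧ ∀ s : ℂ, 2 < s.re → L s = (curve M (multiquadratic S)).LSeries s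

/-- The rank formula for `E_M` over `multiquadratic S`: the order of vanishing of the `L`-function at
`s = 1` is the rank. -/
def RankFormula (S : Finset ℕ) (M : ℕ) : Prop :=
  ∃ L : ℂ → ℂ, Continues S M L ∧ analyticOrderAt L 1 = rank (curve M (multiquadratic S))

/-- `E_M` has the same rank over the fields generated by the square roots of the elements of `S` and of
`S'`, the `L`-functions have the same order of vanishing at `s = 1`, and the rank formula holds over one
of the two fields iff it holds over the other one. -/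
def Stable (S S' : Finset ℕ) (M : ℕ) : Prop :=
  rank (curve M (multiquadratic S')) = rank (curve M (multiquadratic S)) ∧
  (∀ L L' : ℂ → ℂ, Continues S M L → Continues S' M L' → analyticOrderAt L' 1 = analyticOrderAt L 1) ∧
  (RankFormula S' M ↔ RankFormula S M)

section proof

open Pool.Agent.V5helper50.MQ
open Pool.Agent.Y698 (AX EX)
open Pool.Agent.R413.SQ (Joint.tw Joint.num Joint.low_of)
open Pool.Agent.Results.MP_4a9ea6_nt.TwoPartTwistsX49 (Adm mat)
open Pool.Agent.Results.MP_03e5d0_nt.FullClassX49 (num_num)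
open Pool.Agent.Results.MP_cd906c_nt.RandomMultiquadraticFields (cont fin_F)

lemma curve_eq {M : ℕ} (hM : Cl M) (K : Type) [Field K] : curve M K = EX K ((M / 4 : ℕ) : K) :=
  Pool.Agent.Y698.twZ_map (mod_four hM) K

lemma rank_eq {M : ℕ} (hM : Cl M) (K : Type) [Field K] [NumberField K] :
    rank (curve M K) = R7 K M := by
  have h1 := mod_four hM
  rw [curve_eq hM]
  unfold rank
  exact (rk_AX K h1)

lemma same {M : ℕ} {F F' : IntermediateField ℚ ℂ} [NumberField F] [NumberField F'] (h : F' = F) :
    rank (curve M F') = rank (curve M F) ∧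
      ∀ s : ℂ, (curve M F').LSeries s = (curve M F).LSeries s := by
  subst h
  exact ⟨rfl, fun s => rfl⟩

/-- the third part of `Stable` follows from the others -/
lemma stable_of {S S' : Finset ℕ} {M : ℕ} (hS : ∃ L, Continues S M L) (hS' : ∃ L, Continues S' M L)
    (h1 : rank (curve M (multiquadratic S')) = rank (curve M (multiquadratic S)))
    (h2 : ∀ L L' : ℂ → ℂ, Continues S M L → Continues S' M L' →
      analyticOrderAt L' 1 = analyticOrderAt L 1) : Stable S S' M := by
  refine ⟨h1, h2, ?_, ?_⟩
  · rintro ⟨L', h3, h4⟩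
    obtain ⟨L, h5⟩ := hS
    exact ⟨L, h5, by rw [← h2 L L' h5 h3, h4, h1]⟩
  · rintro ⟨L, h3, h4⟩
    obtain ⟨L', h5⟩ := hS'
    exact ⟨L', h5, by rw [h2 L L' h3 h5, h4, h1]⟩

lemma unique {S : Finset ℕ} {M : ℕ} {L L' : ℂ → ℂ} (h : Continues S M L) (h' : Continues S M L') :
    L = L' := entire_unique h.1 h'.1 fun s hs => (h.2 s hs).trans (h'.2 s hs).symm

lemma exists_cont {S : Finset ℕ} (hS : ∀ m ∈ S, Cl m) {M : ℕ} (hM : Cl M) :
    ∃ L, Continues S M L := by
  obtain ⟨L, h1, h2, -⟩ := cont hS hM
  exact ⟨L, h1, h2⟩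

lemma stable_refl {S : Finset ℕ} (hS : ∀ m ∈ S, Cl m) {M : ℕ} (hM : Cl M) : Stable S S M := by
  refine stable_of (exists_cont hS hM) (exists_cont hS hM) rfl fun L L' h h' => ?_
  rw [unique h h']

lemma stable_trans {S S' S'' : Finset ℕ} (hS' : ∀ m ∈ S', Cl m) {M : ℕ} (hM : Cl M)
    (h : Stable S S' M) (h' : Stable S' S'' M) : Stable S S'' M := by
  refine ⟨h'.1.trans h.1, fun L L'' h1 h2 => ?_, h'.2.2.trans h.2.2⟩
  obtain ⟨L', h3⟩ := exists_cont hS' hM
  rw [h'.2.1 L' L'' h3 h2, h.2.1 L L' h1 h3]

/-- **a quadratic extension** -/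
theorem stable_quad {S : Finset ℕ} (hS : ∀ m ∈ S, Cl m) {M D : ℕ} (hM : Cl M) (hD : Cl D)
    (hG : Gf (multiquadratic S) (Joint.tw M D)) : Stable S (insert D S) M := by
  have hS' : ∀ m ∈ insert D S, Cl m := cl_insert hS hD
  by_cases hSF : Sq (multiquadratic S) D
  · have hFF : multiquadratic (insert D S) = multiquadratic S := by
      obtain ⟨z, hz, hz2⟩ := hSF
      have h1 : multiquadratic (insert D S) = multiquadratic S ⊔ IntermediateField.adjoin ℚ {z} :=
        mqn_insert S D hz2
      rw [h1]
      exact sup_eq_left.2 ((IntermediateField.adjoin_simple_le_iff).2 hz)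
    obtain ⟨h1, h2⟩ := same (M := M) hFF
    refine stable_of (exists_cont hS hM) (exists_cont hS' hM) h1 fun L L' h h' => ?_
    have h3 : L' = L := entire_unique h'.1 h.1 fun s hs => by rw [h'.2 s hs, h2 s, h.2 s hs]
    rw [h3]
  · have hN := cl_tw hM hD
    refine stable_of (exists_cont hS hM) (exists_cont hS' hM) ?_ fun L L' h h' => ?_
    · rw [rank_eq hM, rank_eq hM, rank_quad hS (multiquadratic S) rfl hD hSF
        (multiquadratic (insert D S)) rfl hM]
      have h1 := (fin_F hS hN hG).2
      rw [rank_eq hN] at h1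
      rw [h1, add_zero]
    · obtain ⟨L₂, h1, h2, h3⟩ := cont hS hN
      have h4 : L' = fun s => L s * L₂ s := by
        refine entire_unique h'.1 (h.1.mul h1) fun s hs => ?_
        rw [h'.2 s hs, curve_eq hM, lseries_quad hS (multiquadratic S) rfl hD hSF
          (multiquadratic (insert D S)) rfl hM (mod_four hM) (mod_four hN) hs]
        show _ = L s * L₂ s
        rw [h.2 s hs, h2 s hs, curve_eq hM, curve_eq hN]
      rw [h4]
      exact order_mul h.1 h1 (h3 hG)

end proof

open Pool.Agent.V5helper50.MQ in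
open Pool.Agent.R413.SQ (Joint.tw Joint.num) in
open Pool.Agent.Results.MP_03e5d0_nt.FullClassX49 (num_num) in
theorem result :
    (∀ S : Finset ℕ, (∀ m ∈ S, Family m) → ∀ M : ℕ, Family M → ∃! L : ℂ → ℂ, Continues S M L) ∧
    (∀ S T : Finset ℕ, (∀ m ∈ S, Family m) → (∀ M ∈ T, Family M) → ∀ ε : ℝ, 0 < ε →
      ∀ᶠ X : ℕ in atTop,
        ((c ^ Module.finrank ℚ (multiquadratic S)) ^ T.card - ε) * num (fun _ => True) X ≤
          num (fun D => ∀ M ∈ T, Stable S (insert D S) M) X) ∧
    (∀ S T : Finset ℕ, (∀ m ∈ S, Family m) → (∀ M ∈ T, Family M) →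
      ∃ (D : ℕ → ℕ) (F : ℕ → Finset ℕ), F 0 = S ∧ (∀ k, F (k + 1) = insert (D k) (F k)) ∧
        (∀ k, Family (D k) ∧ Module.finrank ℚ (multiquadratic (F k)) =
          2 ^ k * Module.finrank ℚ (multiquadratic S)) ∧
        ∀ M : ℕ, Family M → ∃ k₀ : ℕ, (M ∈ T → k₀ = 0) ∧ ∀ k ≥ k₀, Stable (F k₀) (F k) M) ∧
    0.4194 < c := by
  have hcc : Pool.Agent.Y703.CQ.c2 = c := rfl
  refine ⟨fun S hS M hM => ?_, fun S T hS hT ε hε => ?_, fun S T hS hT => ?_,
    Pool.Agent.Y948.CQ.t_C2.2.2.2.1⟩
  · obtain ⟨L, h⟩ := exists_cont hS hM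
    exact ⟨L, h, fun L' h' => unique h' h⟩
  · obtain ⟨θ, h1, h2, h3⟩ := low_all hS (multiquadratic S) rfl hT
    rw [hcc] at h1
    have h4 := h3.eventually (lt_mem_nhds (show θ - ε < θ by linarith))
    obtain ⟨a, X₀, ha, hlow⟩ := Pool.Agent.R413.SQ.Joint.low
    filter_upwards [h4, eventually_ge_atTop (max X₀ 3)] with X hX hX3
    have k0 : X₀ ≤ X := le_trans (le_max_left _ _) hX3
    have k3 : 3 ≤ X := le_trans (le_max_right _ _) hX3
    have k4 := hlow X k0
    have k5 : 0 < Real.log X := Real.log_pos (by exact_mod_cast (by omega : 1 < X))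
    have k6 : (0 : ℝ) < X := by exact_mod_cast (by omega : 0 < X)
    have k7 : (0 : ℝ) < Joint.num (fun _ => True) X := lt_of_lt_of_le (by positivity) k4
    rw [lt_div_iff₀ k7] at hX
    rw [num_num (Q := fun _ => True) (R := fun _ => True) (fun _ _ => Iff.rfl) X,
      num_num (Q := fun D => ∀ M ∈ T, Stable S (insert D S) M)
        (R := fun D => ∀ M ∈ T, Stable S (insert D S) M) (fun _ _ => Iff.rfl) X]
    have h5 : Joint.num (fun D => ∀ M ∈ T, Gf (multiquadratic S) (Joint.tw M D)) X ≤
        Joint.num (fun D => ∀ M ∈ T, Stable S (insert D S) M) X :=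
      num_mono (fun D hD h M hM => stable_quad hS (hT M hM) hD (h M hM)) X
    have h6 : ((c ^ Module.finrank ℚ (multiquadratic S)) ^ T.card - ε) *
        (Joint.num (fun _ => True) X : ℝ) ≤ (θ - ε) * (Joint.num (fun _ => True) X : ℝ) :=
      mul_le_mul_of_nonneg_right (by linarith) k7.le
    have h7 : (Joint.num (fun D => ∀ M ∈ T, Gf (multiquadratic S) (Joint.tw M D)) X : ℝ) ≤
      Joint.num (fun D => ∀ M ∈ T, Stable S (insert D S) M) X := by exact_mod_cast h5
    linarith
  · classical
    have hstep : ∀ (k : ℕ) (U : {U : Finset ℕ // ∀ m ∈ U, Cl m}), ∃ D, Cl D ∧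
        ¬ Sq (multiquadratic U.1) D ∧ ∀ M ∈ T ∪ (Finset.range k).filter (fun M => Cl M),
          Gf (multiquadratic U.1) (Joint.tw M D) := fun k U =>
      exists_step U.2 (multiquadratic U.1) rfl (fun M hM => by
        rcases Finset.mem_union.1 hM with h | h
        · exact hT M h
        · exact (Finset.mem_filter.1 h).2)
    choose d hd1 hd2 hd3 using hstep
    let G : ℕ → {U : Finset ℕ // ∀ m ∈ U, Cl m} := fun k => Nat.rec ⟨S, hS⟩
      (fun k U => ⟨insert (d k U) U.1, cl_insert U.2 (hd1 k U)⟩) k
    have hG : ∀ k, (G (k + 1)).1 = insert (d k (G k)) (G k).1 := fun k => rfl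
    refine ⟨fun k => d k (G k), fun k => (G k).1, rfl, hG, fun k => ⟨hd1 k (G k), ?_⟩,
      fun M hM => ?_⟩
    · induction k with
      | zero => simp only [pow_zero, one_mul]; rfl
      | succ k ih =>
        have h1 := finrank_insert (G k).2 (multiquadratic (G k).1) rfl (hd1 k (G k)) (hd2 k (G k))
          (multiquadratic (G (k + 1)).1) (by rw [hG]; rfl)
        rw [h1, ih, pow_succ]
        ring
    · have hst : ∀ k, (M ∈ T ∨ M < k) → Stable (G k).1 (G (k + 1)).1 M := by
        intro k hk
        rw [hG]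
        refine stable_quad (G k).2 hM (hd1 k (G k)) (hd3 k (G k) M ?_)
        rcases hk with h | h
        · exact Finset.mem_union_left _ h
        · exact Finset.mem_union_right _ (Finset.mem_filter.2 ⟨Finset.mem_range.2 h, hM⟩)
      have hmain : ∀ k₀, (∀ k ≥ k₀, (M ∈ T ∨ M < k)) → ∀ k ≥ k₀, Stable (G k₀).1 (G k).1 M := by
        intro k₀ h0 k hk
        induction k, hk using Nat.le_induction with
        | base => exact stable_refl (G k₀).2 hM
        | succ k hk ih => exact stable_trans (G k).2 hM ih (hst k (h0 k hk))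
      by_cases hMT : M ∈ T
      · exact ⟨0, fun _ => rfl, hmain 0 fun k _ => Or.inl hMT⟩
      · exact ⟨M + 1, fun h => absurd h hMT, hmain (M + 1) fun k hk => Or.inr (by omega)⟩

end Pool.Agent.Results.MP_cd906c_nt.StableQuadraticExtensions
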